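import Pool.Agent.Lib.MP_49c203_an.Basic

set_option autoImplicit false

namespace QC49

open Filter Set Metric Topology

section ia

variable {E : Type*} [NormedAddCommGroup E]

/-- dependent choice -/
theorem dep_choice {α : Type*} (P : ℕ → α → Prop) (R : ℕ → α → α → Prop) (a0 : α) (h0 : P 0 a0)
    (step : ∀ k a, P k a → ∃ b, P (k + 1) b ∧ R k a b) :
    ∃ s : ℕ → α, s 0 = a0 ∧ (∀ k, P k (s k)) ∧ ∀ k, R k (s k) (s (k + 1)) := by
  classical
  let S : ∀ k : ℕ, {a : α // P k a} := fun k =>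
    Nat.rec (motive := fun k => {a : α // P k a}) ⟨a0, h0⟩
      (fun k a => ⟨(step k a.1 a.2).choose, (step k a.1 a.2).choose_spec.1⟩) k
  refine ⟨fun k => (S k).1, rfl, fun k => (S k).2, fun k => ?_⟩
  exact (step k (S k).1 (S k).2).choose_spec.2

/-- radius function -/
theorem exists_radius {G : Type*} [NormedAddCommGroup G] (D : E → G) (hD : Continuous D) (m : E → ℝ)
    (hm : Continuous m) (hm0 : ∀ x, 0 < m x) (ρ : E → ℝ) (hρ : ∀ x, 0 < ρ x)
    (hρL : ∀ x y, ρ x ≤ ρ y + ‖x - y‖) :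
    ∃ ρ' : E → ℝ, (∀ x, 0 < ρ' x) ∧ (∀ x y, ρ' x ≤ ρ' y + ‖x - y‖) ∧ (∀ x, ρ' x ≤ ρ x / 2) ∧
      ∀ x y, ‖y - x‖ ≤ 4 * ρ' x → ‖D y - D x‖ ≤ m x := by
  classical
  set C : Set (E × E) := {p | m p.2 ≤ ‖D p.1 - D p.2‖} with hC
  have hCc : IsClosed C := isClosed_le (hm.comp continuous_snd)
    ((hD.comp continuous_fst).sub (hD.comp continuous_snd)).norm
  rcases C.eq_empty_or_nonempty with hE | hne
  · refine ⟨fun x => ρ x / 2, fun x => by have := hρ x; positivity, fun x y => ?_, fun x => le_rfl, ?_⟩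
    · have h1 := hρL x y
      have h2 := norm_nonneg (x - y)
      simp only
      linarith
    · intro x y _
      have : (y, x) ∉ C := by rw [hE]; exact Set.notMem_empty _
      simp only [hC, Set.mem_ofPred_eq, not_le] at this
      exact this.le
  · have hpos : ∀ x : E, 0 < infDist (x, x) C := by
      intro x
      rw [← hCc.notMem_iff_infDist_pos hne]
      simp only [hC, Set.mem_ofPred_eq, sub_self, norm_zero, not_le]
      exact hm0 x
    refine ⟨fun x => min (ρ x / 2) (infDist (x, x) C / 8), fun x => ?_, fun x y => ?_,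
      fun x => min_le_left _ _, ?_⟩
    · have := hρ x; have := hpos x
      positivity
    · have h1 := hρL x y
      have h2 := norm_nonneg (x - y)
      have h3 : infDist (x, x) C ≤ infDist (y, y) C + ‖x - y‖ := by
        have := infDist_le_infDist_add_dist (s := C) (x := (x, x)) (y := (y, y))
        rwa [Prod.dist_eq, max_self, dist_eq_norm] at this
      rw [← min_add_add_right]
      refine min_le_min ?_ ?_ <;> linarith
    · intro x y hxy
      have h1 : ‖y - x‖ < infDist (x, x) C := by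
        have := hpos x
        have h2 : min (ρ x / 2) (infDist (x, x) C / 8) ≤ infDist (x, x) C / 8 := min_le_right _ _
        linarith
      by_contra hcon
      push Not at hcon
      have hmem : ((y, x) : E × E) ∈ C := hcon.le
      have h2 := infDist_le_dist_of_mem (x := ((x, x) : E × E)) hmem
      rw [Prod.dist_eq, dist_self, max_eq_left dist_nonneg, dist_comm, dist_eq_norm] at h2
      linarith

end ia

section ib

variable {E : Type*} [NormedAddCommGroup E] [NormedSpace ℝ E] [CompleteSpace E]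

/-- `h - id` is `c`-Lipschitz -/
theorem lip_of_deriv (h : E → E) (Dh : E → E →L[ℝ] E) (c : ℝ) (hd : ∀ x, HasFDerivAt h (Dh x) x)
    (hc : ∀ x, ‖Dh x - ContinuousLinearMap.id ℝ E‖ ≤ c) (x y : E) :
    ‖(h y - h x) - (y - x)‖ ≤ c * ‖y - x‖ := by
  have := (convex_univ (𝕜 := ℝ) (E := E)).norm_image_sub_le_of_norm_hasFDerivWithin_le
    (f := fun z => h z - z) (f' := fun z => Dh z - ContinuousLinearMap.id ℝ E) (C := c) (x := x) (y := y)
    (fun z _ => ((hd z).sub (hasFDerivAt_id z)).hasFDerivWithinAt) (fun z _ => hc z)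
    (mem_univ _) (mem_univ _)
  calc ‖(h y - h x) - (y - x)‖ = ‖(h y - y) - (h x - x)‖ := by congr 1; abel
    _ ≤ _ := this

/-- perturbation of the identity is a homeomorphism -/
theorem exists_homeo (h : E → E) (c : ℝ) (hc : 0 ≤ c) (hc2 : c < 1 / 2)
    (hl : ∀ x y, ‖(h y - h x) - (y - x)‖ ≤ c * ‖y - x‖) :
    ∃ e : E ≃ₜ E, (⇑e = h) := by
  have hA : ApproximatesLinearOn h ((ContinuousLinearEquiv.refl ℝ E : E ≃L[ℝ] E) : E →L[ℝ] E) univ
      (Real.toNNReal c) := by
    intro x _ y _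
    have := hl y x
    rw [Real.coe_toNNReal c hc]
    simpa using this
  rcases subsingleton_or_nontrivial E with hs | hn
  · exact ⟨hA.toHomeomorph h (Or.inl hs), rfl⟩
  · refine ⟨hA.toHomeomorph h (Or.inr ?_), rfl⟩
    have h1 : ‖((ContinuousLinearEquiv.refl ℝ E : E ≃L[ℝ] E).symm : E →L[ℝ] E)‖₊ = 1 := by
      have : ((ContinuousLinearEquiv.refl ℝ E : E ≃L[ℝ] E).symm : E →L[ℝ] E) = ContinuousLinearMap.id ℝ E := by
        ext x; rfl
      rw [this]
      exact NNReal.eq ContinuousLinearMap.norm_id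
    rw [h1, inv_one]
    rw [← NNReal.coe_lt_coe, Real.coe_toNNReal c hc, NNReal.coe_one]
    linarith

/-- local linearisation -/
theorem taylor_ball (f : E → E) (Df : E → E →L[ℝ] E) (hd : ∀ x, HasFDerivAt f (Df x) x) (x : E) (R C : ℝ)
    (hR : 0 ≤ R) (hb : ∀ y, ‖y - x‖ ≤ R → ‖Df y - Df x‖ ≤ C) (y : E) (hy : ‖y - x‖ ≤ R) :
    ‖f y - f x - Df x (y - x)‖ ≤ C * ‖y - x‖ := by
  refine (convex_closedBall x R).norm_image_sub_le_of_norm_hasFDerivWithin_le' (f := f) (f' := Df)
    (fun z _ => (hd z).hasFDerivWithinAt) (fun z hz => hb z ?_) (mem_closedBall_self hR) ?_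
  · rwa [mem_closedBall, dist_eq_norm] at hz
  · rwa [mem_closedBall, dist_eq_norm]

/-- iterated composition `h k ∘ h (k+1) ∘ ... ∘ h (k+n-1)` -/
def itr (h : ℕ → E → E) : ℕ → ℕ → E → E
  | 0, _, x => x
  | n + 1, k, x => h k (itr h n (k + 1) x)

/-- inverse composition -/
def itrI (h : ℕ → E → E) : ℕ → ℕ → E → E
  | 0, _, x => x
  | n + 1, k, x => itrI h n (k + 1) (h k x)

/-- a sequence of maps with geometric uniform steps has a continuous limit -/
theorem unif_lim (u : ℕ → E → E) (C : ℝ) (hu : ∀ n, Continuous (u n))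
    (hs : ∀ n x, ‖u (n + 1) x - u n x‖ ≤ C * (1 / 2) ^ n) :
    ∃ g : E → E, Continuous g ∧ (∀ x, Tendsto (fun n => u n x) atTop (𝓝 (g x))) ∧
      ∀ n x, ‖u n x - g x‖ ≤ C * (1 / 2) ^ n / (1 - 1 / 2) := by
  have hC : ∀ x, CauchySeq (fun n => u n x) := fun x =>
    cauchySeq_of_le_geometric (1 / 2) C (by norm_num) (fun n => by
      rw [dist_comm, dist_eq_norm]; exact hs n x)
  choose g hg using fun x => cauchySeq_tendsto_of_complete (hC x)
  have hb : ∀ n x, ‖u n x - g x‖ ≤ C * (1 / 2) ^ n / (1 - 1 / 2) := by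
    intro n x
    rw [← dist_eq_norm]
    exact dist_le_of_le_geometric_of_tendsto (1 / 2) C (by norm_num) (fun n => by
      rw [dist_comm, dist_eq_norm]; exact hs n x) (hg x) n
  refine ⟨g, ?_, hg, hb⟩
  have hU : TendstoUniformly u g atTop := by
    rw [Metric.tendstoUniformly_iff]
    intro ε hε
    have hT : Tendsto (fun n : ℕ => C * (1 / 2) ^ n / (1 - 1 / 2)) atTop (𝓝 (C * 0 / (1 - 1 / 2))) :=
      ((tendsto_pow_atTop_nhds_zero_of_lt_one (by norm_num) (by norm_num)).const_mul C).div_const _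
    rw [mul_zero, zero_div] at hT
    filter_upwards [hT.eventually (gt_mem_nhds hε)] with n hn x
    rw [dist_comm, dist_eq_norm]
    exact (hb n x).trans_lt hn
  exact hU.continuous (Filter.Eventually.of_forall hu).frequently

/-- if `u n (v n y) = y`, both converge uniformly, then the limits compose to the identity -/
theorem lim_inv (u v : ℕ → E → E) (g gi : E → E) (C : ℝ) (hg : Continuous g)
    (hub : ∀ n x, ‖u n x - g x‖ ≤ C * (1 / 2) ^ n / (1 - 1 / 2))
    (hv : ∀ x, Tendsto (fun n => v n x) atTop (𝓝 (gi x))) (huv : ∀ n y, u n (v n y) = y) (y : E) :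
    g (gi y) = y := by
  have h1 : Tendsto (fun n => g (v n y)) atTop (𝓝 (g (gi y))) := (hg.tendsto _).comp (hv y)
  have h2 : Tendsto (fun n => g (v n y)) atTop (𝓝 y) := by
    rw [tendsto_iff_norm_sub_tendsto_zero]
    have hT : Tendsto (fun n : ℕ => C * (1 / 2) ^ n / (1 - 1 / 2)) atTop (𝓝 (C * 0 / (1 - 1 / 2))) :=
      ((tendsto_pow_atTop_nhds_zero_of_lt_one (by norm_num) (by norm_num)).const_mul C).div_const _
    rw [mul_zero, zero_div] at hT
    refine squeeze_zero (fun n => norm_nonneg _) (fun n => ?_) hT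
    have := hub n (v n y)
    rw [huv n y, norm_sub_rev] at this
    exact this
  exact tendsto_nhds_unique h1 h2

theorem exists_limit (h : ℕ → E → E) (ρ : ℕ → E → ℝ)
    (hl : ∀ k x y, ‖(h k y - h k x) - (y - x)‖ ≤ (1 / 4) * ‖y - x‖)
    (hρ0 : ∀ k x, 0 < ρ k x) (hρL : ∀ k x y, ρ k x ≤ ρ k y + ‖x - y‖)
    (hρd : ∀ k x, ρ (k + 1) x ≤ ρ k x / 2) (hρ1 : ∀ x, ρ 0 x ≤ 1)
    (hd : ∀ k x, ‖h k x - x‖ ≤ (1 / 4) ^ (k + 3) * ρ k x) :
    ∃ g : ℕ → E → E, (∀ k x, h k (g (k + 1) x) = g k x) ∧
      (∀ k x, ‖g k x - x‖ ≤ (1 / 4) ^ (k + 2) * ρ k x) ∧ ∃ e : E ≃ₜ E, ⇑e = g 0 := by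
  have hρk : ∀ k x, ρ k x ≤ 1 := by
    intro k
    induction k with
    | zero => exact hρ1
    | succ k ih =>
      intro x
      have h1 := hρd k x
      have h2 := ih x
      have h3 := hρ0 k x
      linarith
  have hlip : ∀ k x y, ‖h k y - h k x‖ ≤ 2 * ‖y - x‖ := by
    intro k x y
    have h1 := hl k x y
    have h2 : ‖h k y - h k x‖ ≤ ‖(h k y - h k x) - (y - x)‖ + ‖y - x‖ := by
      calc ‖h k y - h k x‖ = ‖((h k y - h k x) - (y - x)) + (y - x)‖ := by congr 1; abel
        _ ≤ _ := norm_add_le _ _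
    have h3 := norm_nonneg (y - x)
    linarith
  have hcont : ∀ k, Continuous (h k) := by
    intro k
    have : LipschitzWith 2 (h k) := LipschitzWith.of_dist_le_mul (fun x y => by
      rw [dist_eq_norm, dist_eq_norm]; exact hlip k y x)
    exact this.continuous
  choose e he using fun k => exists_homeo (h k) (1 / 4) (by norm_num) (by norm_num) (hl k)
  -- forward steps
  have hstep : ∀ n k x, ‖itr h (n + 1) k x - itr h n k x‖ ≤ 2 ^ n * ‖h (k + n) x - x‖ := by
    intro n
    induction n with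
    | zero => intro k x; simp [itr]
    | succ n ih =>
      intro k x
      have h1 : itr h (n + 1 + 1) k x = h k (itr h (n + 1) (k + 1) x) := rfl
      have h2 : itr h (n + 1) k x = h k (itr h n (k + 1) x) := rfl
      rw [h1, h2]
      calc _ ≤ 2 * ‖itr h (n + 1) (k + 1) x - itr h n (k + 1) x‖ := hlip k _ _
        _ ≤ 2 * (2 ^ n * ‖h (k + 1 + n) x - x‖) := by gcongr; exact ih (k + 1) x
        _ = 2 ^ (n + 1) * ‖h (k + (n + 1)) x - x‖ := by
          rw [show k + 1 + n = k + (n + 1) by ring]; ring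
  have hstep2 : ∀ k n x, ‖itr h (n + 1) k x - itr h n k x‖ ≤ (1 / 64) * (1 / 2) ^ n := by
    intro k n x
    refine (hstep n k x).trans ?_
    have h1 := hd (k + n) x
    have h2 := hρk (k + n) x
    have h3 := (hρ0 (k + n) x).le
    have h4 : (1 / 4 : ℝ) ^ (k + n + 3) ≤ (1 / 4) ^ n * (1 / 64) := by
      have : (1 / 4 : ℝ) ^ k ≤ 1 := pow_le_one₀ (by norm_num) (by norm_num)
      calc (1 / 4 : ℝ) ^ (k + n + 3) = (1 / 4) ^ k * ((1 / 4) ^ n * (1 / 64)) := by
            rw [pow_add, pow_add]; norm_num; ring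
        _ ≤ 1 * ((1 / 4) ^ n * (1 / 64)) := by gcongr
        _ = _ := one_mul _
    calc (2 : ℝ) ^ n * ‖h (k + n) x - x‖ ≤ 2 ^ n * ((1 / 4) ^ (k + n + 3) * ρ (k + n) x) := by gcongr
      _ ≤ 2 ^ n * (((1 / 4) ^ n * (1 / 64)) * 1) := by gcongr
      _ = (1 / 64) * (2 * (1 / 4)) ^ n := by rw [mul_pow]; ring
      _ = (1 / 64) * (1 / 2) ^ n := by norm_num
  have hcontI : ∀ n k, Continuous (itr h n k) := by
    intro n
    induction n with
    | zero => intro k; exact continuous_id
    | succ n ih => intro k; exact (hcont k).comp (ih (k + 1))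
  choose g hgc hgt hgb using fun k => unif_lim (fun n => itr h n k) (1 / 64) (fun n => hcontI n k) (hstep2 k)
  -- inverse steps
  set hi : ℕ → E → E := fun k => ⇑(e k).symm with hhi
  have hhi1 : ∀ k x, h k (hi k x) = x := by
    intro k x
    have := (e k).apply_symm_apply x
    rw [he k] at this
    exact this
  have hhi2 : ∀ k x, hi k (h k x) = x := by
    intro k x
    have := (e k).symm_apply_apply x
    rw [he k] at this
    exact this
  have hIstep : ∀ n k y, ‖itrI hi (n + 1) k y - itrI hi n k y‖ ≤ (1 / 4) ^ (k + n + 3) := by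
    intro n
    induction n with
    | zero =>
      intro k y
      have h1 : itrI hi (0 + 1) k y = hi k y := rfl
      have h2 : itrI hi 0 k y = y := rfl
      rw [h1, h2]
      have h3 := hd k (hi k y)
      rw [hhi1, norm_sub_rev] at h3
      refine h3.trans ?_
      have h4 := hρk k (hi k y)
      calc (1 / 4 : ℝ) ^ (k + 3) * ρ k (hi k y) ≤ (1 / 4) ^ (k + 3) * 1 := by gcongr
        _ = _ := by rw [mul_one, add_zero]
    | succ n ih =>
      intro k y
      have h1 : itrI hi (n + 1 + 1) k y = itrI hi (n + 1) (k + 1) (hi k y) := rfl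
      have h2 : itrI hi (n + 1) k y = itrI hi n (k + 1) (hi k y) := rfl
      rw [h1, h2]
      have := ih (k + 1) (hi k y)
      rwa [show k + 1 + n + 3 = k + (n + 1) + 3 by ring] at this
  have hIstep2 : ∀ k n x, ‖itrI hi (n + 1) k x - itrI hi n k x‖ ≤ (1 / 64) * (1 / 2) ^ n := by
    intro k n x
    refine (hIstep n k x).trans ?_
    have h1 : (1 / 4 : ℝ) ^ k ≤ 1 := pow_le_one₀ (by norm_num) (by norm_num)
    have h2 : (1 / 4 : ℝ) ^ n ≤ (1 / 2) ^ n := pow_le_pow_left₀ (by norm_num) (by norm_num) n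
    calc (1 / 4 : ℝ) ^ (k + n + 3) = (1 / 4) ^ k * ((1 / 64) * (1 / 4) ^ n) := by
            rw [pow_add, pow_add]; norm_num; ring
      _ ≤ 1 * ((1 / 64) * (1 / 2) ^ n) := by gcongr
      _ = _ := one_mul _
  have hhic : ∀ k, Continuous (hi k) := fun k => (e k).symm.continuous
  have hcontJ : ∀ n k, Continuous (itrI hi n k) := by
    intro n
    induction n with
    | zero => intro k; exact continuous_id
    | succ n ih => intro k; exact (ih (k + 1)).comp (hhic k)
  choose gi hgic hgit hgib using fun k => unif_lim (fun n => itrI hi n k) (1 / 64) (fun n => hcontJ n k) (hIstep2 k)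
  have hinv1 : ∀ n k y, itr h n k (itrI hi n k y) = y := by
    intro n
    induction n with
    | zero => intro k y; rfl
    | succ n ih =>
      intro k y
      show h k (itr h n (k + 1) (itrI hi n (k + 1) (hi k y))) = y
      rw [ih (k + 1), hhi1]
  have hinv2 : ∀ n k y, itrI hi n k (itr h n k y) = y := by
    intro n
    induction n with
    | zero => intro k y; rfl
    | succ n ih =>
      intro k y
      show itrI hi n (k + 1) (hi k (h k (itr h n (k + 1) y))) = y
      rw [hhi2, ih (k + 1)]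
  refine ⟨g, ?_, ?_, ?_⟩
  · intro k x
    have h1 : Tendsto (fun n => itr h (n + 1) k x) atTop (𝓝 (g k x)) := (hgt k x).comp (tendsto_add_atTop_nat 1)
    have h2 : Tendsto (fun n => itr h (n + 1) k x) atTop (𝓝 (h k (g (k + 1) x))) :=
      ((hcont k).tendsto _).comp (hgt (k + 1) x)
    exact tendsto_nhds_unique h2 h1
  · intro k x
    have hdisp : ∀ n k x, ‖itr h n k x - x‖ ≤ (1 / 4) ^ (k + 2) * ρ k x := by
      intro n
      induction n with
      | zero =>
        intro k x
        have := (hρ0 k x).le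
        simp only [itr, sub_self, norm_zero]
        positivity
      | succ n ih =>
        intro k x
        have h1 : itr h (n + 1) k x = h k (itr h n (k + 1) x) := rfl
        rw [h1]
        set z := itr h n (k + 1) x with hz
        have h2 : ‖z - x‖ ≤ (1 / 4) ^ (k + 3) * ρ k x := by
          have h3 := ih (k + 1) x
          have h4 := hρd k x
          have h5 := (hρ0 k x).le
          calc ‖z - x‖ ≤ (1 / 4) ^ (k + 1 + 2) * ρ (k + 1) x := h3
            _ ≤ (1 / 4) ^ (k + 1 + 2) * ρ k x := by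
              have : ρ (k + 1) x ≤ ρ k x := by linarith
              gcongr
            _ = _ := by rw [show k + 1 + 2 = k + 3 by ring]
        have h6 := hd k z
        have h7 := hρL k z x
        have h8 : (1 / 4 : ℝ) ^ (k + 3) ≤ 1 := pow_le_one₀ (by norm_num) (by norm_num)
        have h9 : (0 : ℝ) < (1 / 4) ^ (k + 3) := by positivity
        have h10 := (hρ0 k x).le
        have h11 : ρ k z ≤ 2 * ρ k x := by nlinarith
        calc ‖h k z - x‖ = ‖(h k z - z) + (z - x)‖ := by congr 1; abel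
          _ ≤ ‖h k z - z‖ + ‖z - x‖ := norm_add_le _ _
          _ ≤ (1 / 4) ^ (k + 3) * (2 * ρ k x) + (1 / 4) ^ (k + 3) * ρ k x := by
            refine add_le_add (h6.trans ?_) h2
            gcongr
          _ ≤ (1 / 4) ^ (k + 2) * ρ k x := by
            have : (1 / 4 : ℝ) ^ (k + 2) = 4 * (1 / 4) ^ (k + 3) := by
              rw [show k + 3 = (k + 2) + 1 by ring, pow_succ]; ring
            rw [this]
            nlinarith [mul_nonneg h9.le h10]
    have h1 : Tendsto (fun n => ‖itr h n k x - x‖) atTop (𝓝 ‖g k x - x‖) :=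
      ((hgt k x).sub_const x).norm
    exact le_of_tendsto' h1 (fun n => hdisp n k x)
  · refine ⟨⟨⟨g 0, gi 0, ?_, ?_⟩, hgc 0, hgic 0⟩, rfl⟩
    · intro x
      exact lim_inv (fun n => itrI hi n 0) (fun n => itr h n 0) (gi 0) (g 0) (1 / 64) (hgic 0)
        (hgib 0) (hgt 0) (fun n y => hinv2 n 0 y) x
    · intro x
      exact lim_inv (fun n => itr h n 0) (fun n => itrI hi n 0) (g 0) (gi 0) (1 / 64) (hgc 0)
        (hgb 0) (hgit 0) (fun n y => hinv1 n 0 y) x

end ib

end QC49
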