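import Pool.Agent.Lib.MP_49c203_an.I.Main

set_option autoImplicit false

namespace QC49

open Filter Set Metric Topology

open scoped RealInnerProductSpace

noncomputable section

/-- the unit vectors -/
def ee (i : ℕ) : HH := lp.single 2 i (1 : ℝ)

theorem ee_norm (i : ℕ) : ‖ee i‖ = 1 := by
  unfold ee
  rw [lp.norm_single (by norm_num)]
  simp

theorem ee_inner (i j : ℕ) (h : i ≠ j) : ⟪ee i, ee j⟫ = 0 := by
  unfold ee
  rw [lp.inner_single_left]
  simp [h]

theorem ee_orth : Orthonormal ℝ ee := ⟨ee_norm, fun i j h => ee_inner i j h⟩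

theorem not_fd : ¬ FiniteDimensional ℝ HH := by
  intro h
  have := ee_orth.linearIndependent.finite
  exact not_finite ℕ

/-- the rank one operator `u ↦ ⟪e, u⟫ e` -/
def rk1 : HH →L[ℝ] HH := (innerSL ℝ (ee 0)).smulRight (ee 0)

theorem rk1_apply (u : HH) : rk1 u = ⟪ee 0, u⟫ • ee 0 := by
  simp [rk1]

def A0 : HH →L[ℝ] HH := ContinuousLinearMap.id ℝ HH + (1 / 100 : ℝ) • rk1

def K0 : HH →L[ℝ] HH := (201 / 10000 : ℝ) • rk1

theorem A0_apply (u : HH) : A0 u = u + (1 / 100 : ℝ) • (⟪ee 0, u⟫ • ee 0) := by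
  simp [A0, rk1_apply]

theorem K0_apply (u : HH) : K0 u = (201 / 10000 : ℝ) • (⟪ee 0, u⟫ • ee 0) := by
  simp [K0, rk1_apply]

theorem K0_inner (u v : HH) : ⟪K0 u, v⟫ = 201 / 10000 * (⟪ee 0, u⟫ * ⟪ee 0, v⟫) := by
  rw [K0_apply, real_inner_smul_left, real_inner_smul_left]

theorem K0_inner' (u v : HH) : ⟪u, K0 v⟫ = 201 / 10000 * (⟪ee 0, u⟫ * ⟪ee 0, v⟫) := by
  rw [real_inner_comm, K0_inner]
  ring

theorem A0_norm (u : HH) : ‖A0 u‖ ^ 2 = ‖u‖ ^ 2 + ⟪K0 u, u⟫ := by
  rw [K0_inner, A0_apply, norm_add_sq_real, norm_smul, norm_smul, ee_norm, real_inner_smul_right,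
    real_inner_smul_right, real_inner_comm u (ee 0), Real.norm_eq_abs, Real.norm_eq_abs, mul_one, mul_pow, sq_abs, sq_abs]
  ring

theorem K0_compact : IsCompactOperator K0 := by
  have h1 : IsCompactOperator (innerSL ℝ (ee 0) : HH →L[ℝ] ℝ) :=
    isCompactOperator_of_locallyCompactSpace_dom _
  have h2 : Continuous (fun t : ℝ => (201 / 10000 : ℝ) • (t • ee 0)) := by fun_prop
  have h3 := h1.continuous_comp h2
  have h4 : ((fun t : ℝ => (201 / 10000 : ℝ) • (t • ee 0)) ∘ (innerSL ℝ (ee 0) : HH →L[ℝ] ℝ)) = (K0 : HH → HH) := by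
    funext u
    simp only [Function.comp, innerSL_apply_apply]
    rw [K0_apply]
  rw [← h4]
  exact h3

theorem K0_pot : Pot (qf K0) (1 / 20) (1 / 400) := by
  intro m u hu
  have : ∀ b, (max 0 (|qf K0 (u b)| - 1 / 20)) ^ 2 = 0 := by
    intro b
    have h1 : |⟪ee 0, u b⟫| ≤ 1 := by
      have := abs_real_inner_le_norm (ee 0) (u b)
      rwa [ee_norm, hu.1 b, mul_one] at this
    have h2 : |qf K0 (u b)| ≤ 1 / 20 := by
      unfold qf
      rw [K0_inner, abs_mul, abs_mul]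
      have h3 : |⟪ee 0, u b⟫| * |⟪ee 0, u b⟫| ≤ 1 := by
        have := abs_nonneg ⟪ee 0, u b⟫
        nlinarith
      rw [abs_of_pos (by norm_num)]
      nlinarith
    rw [max_eq_left (by linarith)]
    norm_num
  rw [Finset.sum_congr rfl (fun b _ => this b)]
  simp

def s0 : St := ⟨fun x => A0 x, fun _ => A0, fun _ => 1, fun _ => K0, fun _ => 1⟩

theorem inv0 : Inv 0 s0 := by
  refine ⟨?_, ?_, ?_, ?_, ?_, ?_, ?_, ?_, ?_, ?_, ?_, ?_, ?_⟩
  · intro x; exact A0.hasFDerivAt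
  · exact continuous_const
  · exact continuous_const
  · intro x; exact one_pos
  · exact continuous_const
  · intro x u v
    show ⟪K0 u, v⟫ = ⟪u, K0 v⟫
    rw [K0_inner, K0_inner']
  · intro x; exact K0_compact
  · intro x u
    show ‖A0 u‖ ^ 2 = (1 : ℝ) ^ 2 * (‖u‖ ^ 2 + ⟪K0 u, u⟫)
    rw [A0_norm]; ring
  · intro x
    show Pot (qf K0) (Wv 0) (1 / 400)
    have : Wv 0 = 1 / 20 := by simp [Wv]
    rw [this]
    exact K0_pot
  · intro x; exact one_pos
  · intro x y
    show (1 : ℝ) ≤ 1 + ‖x - y‖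
    have := norm_nonneg (x - y)
    linarith
  · intro x
    show (1 : ℝ) ≤ (1 / 2) ^ 0
    simp
  · intro x y _
    show ‖A0 - A0‖ ≤ av 0 * 1
    rw [sub_self, norm_zero]
    have := av_pos 0
    linarith

/-- `f = A0 ∘ g` with `|g - id| ≤ 1` is not a similarity -/
theorem not_similar (g : HH → HH) (hg : ∀ x, ‖g x - x‖ ≤ 1) (c : ℝ)
    (h : ∀ x y : HH, dist (A0 (g x)) (A0 (g y)) = c * dist x y) : False := by
  have hA : ∀ x : HH, ‖A0 x‖ ≤ 2 * ‖x‖ := by
    intro x
    rw [A0_apply]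
    have h1 := abs_real_inner_le_norm (ee 0) x
    rw [ee_norm, one_mul] at h1
    calc ‖x + (1 / 100 : ℝ) • (⟪ee 0, x⟫ • ee 0)‖ ≤ ‖x‖ + ‖(1 / 100 : ℝ) • (⟪ee 0, x⟫ • ee 0)‖ := norm_add_le _ _
      _ = ‖x‖ + 1 / 100 * |⟪ee 0, x⟫| := by
        rw [norm_smul, norm_smul, ee_norm, Real.norm_eq_abs, Real.norm_eq_abs, mul_one, abs_of_pos (by norm_num)]
      _ ≤ 2 * ‖x‖ := by
        have := norm_nonneg x
        linarith
  have hd : ∀ x y : HH, |dist (A0 (g x)) (A0 (g y)) - ‖A0 (x - y)‖| ≤ 4 := by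
    intro x y
    rw [dist_eq_norm]
    refine (abs_norm_sub_norm_le _ _).trans ?_
    have : A0 (g x) - A0 (g y) - A0 (x - y) = A0 ((g x - x) - (g y - y)) := by
      simp only [map_sub]; abel
    rw [this]
    refine (hA _).trans ?_
    have := norm_sub_le (g x - x) (g y - y)
    have := hg x
    have := hg y
    linarith
  have e0 := hd ((1000 : ℝ) • ee 0) 0
  have e1 := hd ((1000 : ℝ) • ee 1) 0
  have k0 : ‖A0 ((1000 : ℝ) • ee 0 - 0)‖ = 1010 := by
    rw [sub_zero, A0_apply, real_inner_smul_right, real_inner_self_eq_norm_sq, ee_norm, smul_smul, ← add_smul,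
      norm_smul, ee_norm, Real.norm_eq_abs]
    norm_num
  have k1 : ‖A0 ((1000 : ℝ) • ee 1 - 0)‖ = 1000 := by
    rw [sub_zero, A0_apply, real_inner_smul_right, ee_inner 0 1 (by norm_num), mul_zero, zero_smul, smul_zero,
      add_zero, norm_smul, ee_norm, Real.norm_eq_abs]
    norm_num
  have n0 : dist ((1000 : ℝ) • ee 0) 0 = 1000 := by
    rw [dist_zero_right, norm_smul, ee_norm]; norm_num
  have n1 : dist ((1000 : ℝ) • ee 1) 0 = 1000 := by
    rw [dist_zero_right, norm_smul, ee_norm]; norm_num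
  rw [h, k0, n0, abs_le] at e0
  rw [h, k1, n1, abs_le] at e1
  linarith [e0.1, e1.2]

theorem K_tendsto (s : ℕ → St) (hI : ∀ k, Inv k (s k)) (h : ℕ → HH → HH)
    (hP : ∀ k x w Φ, 1000 * av k ≤ w → 0 ≤ Φ → Pot (qf ((s k).K (h k x))) w Φ →
      Pot (qf ((s (k + 1)).K x)) (w + 10 * ev k) ((1 - av k * (av k ^ 3 / 10 ^ 4) / 128) * Φ
        + 132 * (av k ^ 3 / 10 ^ 4) ^ 2))
    (z : ℕ → HH) (hz : ∀ k, h k (z (k + 1)) = z k) :
    Tendsto (fun k => ‖(s k).K (z k)‖) atTop (𝓝 0) := by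
  rw [Metric.tendsto_atTop]
  intro ε hε
  set w := ε / 4 with hw
  have hw0 : 0 < w := by positivity
  have e1 : ∀ᶠ k in atTop, 1000 * av k < w := by
    have := av_tendsto.const_mul 1000
    rw [mul_zero] at this
    exact this.eventually (gt_mem_nhds hw0)
  obtain ⟨k0, hk0⟩ := eventually_atTop.mp e1
  obtain ⟨Φ0, hΦ0, hPot0⟩ := pot_of_compact ((hI k0).hKk (z k0)) ((hI k0).hKs (z k0)) hw0
  set Φ : ℕ → ℝ := fun n => Nat.rec Φ0 (fun n P => (1 - av (k0 + n) * (av (k0 + n) ^ 3 / 10 ^ 4) / 128) * P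
      + 132 * (av (k0 + n) ^ 3 / 10 ^ 4) ^ 2) n with hΦdef
  have hΦs : ∀ n, Φ (n + 1) = (1 - av (k0 + n) * (av (k0 + n) ^ 3 / 10 ^ 4) / 128) * Φ n
      + 132 * (av (k0 + n) ^ 3 / 10 ^ 4) ^ 2 := fun n => rfl
  have hc : ∀ k, av k * (av k ^ 3 / 10 ^ 4) / 128 ≤ 1 := by
    intro k
    have h1 := av_pow4 k
    have h2 : av k * (av k ^ 3 / 10 ^ 4) / 128 = av k ^ 4 / (10 ^ 4 * 128) := by ring
    have h3 : 1 / ((k : ℝ) + 1) ≤ 1 := by
      rw [div_le_one (by positivity)]
      have : (0 : ℝ) ≤ k := Nat.cast_nonneg k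
      linarith
    rw [h2, h1]
    have h4 : (1 : ℝ) / 10 ^ 20 * (1 / ((k : ℝ) + 1)) ≤ 1 / 10 ^ 20 * 1 := by gcongr
    calc (1 : ℝ) / 10 ^ 20 * (1 / ((k : ℝ) + 1)) / (10 ^ 4 * 128) ≤ (1 / 10 ^ 20 * 1) / (10 ^ 4 * 128) := by gcongr
      _ ≤ 1 := by norm_num
  have hΦ : ∀ n, 0 ≤ Φ n := by
    intro n
    induction n with
    | zero => exact hΦ0
    | succ n ih =>
      rw [hΦs]
      have := hc (k0 + n)
      have h1 : 0 ≤ (1 - av (k0 + n) * (av (k0 + n) ^ 3 / 10 ^ 4) / 128) * Φ n := mul_nonneg (by linarith) ih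
      positivity
  have hT := phi_tendsto k0 Φ hΦ hΦs
  have hPot : ∀ n, Pot (qf ((s (k0 + n)).K (z (k0 + n)))) (w + 10 * ∑ j ∈ Finset.range n, ev (k0 + j)) (Φ n) := by
    intro n
    induction n with
    | zero =>
      simp only [Finset.range_zero, Finset.sum_empty, mul_zero, add_zero]
      exact hPot0
    | succ n ih =>
      have h1 : 0 ≤ ∑ j ∈ Finset.range n, ev (k0 + j) := Finset.sum_nonneg (fun j _ => (ev_pos _).le)
      have h2 := hP (k0 + n) (z (k0 + n + 1)) (w + 10 * ∑ j ∈ Finset.range n, ev (k0 + j)) (Φ n)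
        (by have := hk0 (k0 + n) (by omega); linarith) (hΦ n) (by rw [hz]; exact ih)
      rw [Finset.sum_range_succ, hΦs]
      have h3 : w + 10 * (∑ j ∈ Finset.range n, ev (k0 + j) + ev (k0 + n)) =
          w + 10 * ∑ j ∈ Finset.range n, ev (k0 + j) + 10 * ev (k0 + n) := by ring
      rw [h3]
      exact h2
  obtain ⟨N, hN⟩ := eventually_atTop.mp (hT.eventually (gt_mem_nhds (show (0 : ℝ) < w ^ 2 by positivity)))
  refine ⟨k0 + N, fun k hk => ?_⟩
  obtain ⟨n, rfl⟩ := Nat.exists_eq_add_of_le (show k0 ≤ k by omega)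
  have h1 : 0 ≤ ∑ j ∈ Finset.range n, ev (k0 + j) := Finset.sum_nonneg (fun j _ => (ev_pos _).le)
  have h2 := (hPot n).norm_le ((hI _).hKs _) (by positivity)
  have h3 := sum_ev k0 n w hw0.le (fun k hk => (hk0 k hk).le)
  have h4 : √(Φ n) ≤ w := by
    rw [Real.sqrt_le_iff]
    exact ⟨hw0.le, (hN n (by omega)).le⟩
  rw [Real.dist_eq, sub_zero, abs_of_nonneg (norm_nonneg _)]
  linarith

/-- Sections 7 and 8: the core theorem gives the counterexample -/
theorem final_aux (core : CoreStatement) :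
    ∃ f : HH ≃ₜ HH,
      (∀ x : HH, Filter.limsup
            (fun r : ℝ =>
              (⨆ y ∈ Metric.sphere x r, edist (f y) (f x)) /
                (⨅ y ∈ Metric.sphere x r, edist (f y) (f x)))
            (nhdsWithin (0 : ℝ) (Set.Ioi 0)) = 1) ∧
      ∀ c : ℝ, ¬ ∀ x y : HH, dist (f x) (f y) = c * dist x y := by
  obtain ⟨s, hs0, hI, hR⟩ := dep_choice Inv Rel s0 inv0 (fun k a ha => step core k a ha)
  choose h hf hl hd hr hP using hR
  have hl4 : ∀ k x y, ‖(h k y - h k x) - (y - x)‖ ≤ (1 / 4) * ‖y - x‖ := by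
    intro k x y
    refine (hl k x y).trans ?_
    have := av_le k
    have h3 : 3 * av k ≤ 1 / 4 := by
      norm_num at this ⊢
      linarith
    gcongr
  obtain ⟨g, hg, hgd, e, he⟩ := exists_limit h (fun k => (s k).rho) hl4 (fun k => (hI k).hr)
    (fun k => (hI k).hrL) hr (fun x => by simpa using (hI 0).hr2 x) hd
  obtain ⟨A, hA⟩ := exists_homeo (fun x => A0 x) (1 / 100) (by norm_num) (by norm_num) (fun x y => by
    show ‖(A0 y - A0 x) - (y - x)‖ ≤ 1 / 100 * ‖y - x‖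
    have : (A0 y - A0 x) - (y - x) = (1 / 100 : ℝ) • (⟪ee 0, y - x⟫ • ee 0) := by
      rw [← map_sub, A0_apply]; abel
    rw [this, norm_smul, norm_smul, ee_norm, mul_one, Real.norm_eq_abs, Real.norm_eq_abs,
      abs_of_pos (by norm_num)]
    have := abs_real_inner_le_norm (ee 0) (y - x)
    rw [ee_norm, one_mul] at this
    gcongr)
  have hfk : ∀ k y, A0 (g 0 y) = (s k).f (g k y) := by
    intro k
    induction k with
    | zero => intro y; rw [hs0]; rfl
    | succ k ih => intro y; rw [ih, hf, hg]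
  refine ⟨e.trans A, ?_, ?_⟩
  · intro x
    have hfun : ∀ y, (e.trans A) y = A0 (g 0 y) := by
      intro y
      show A (e y) = _
      rw [he, hA]
    have : Nontrivial HH := ⟨⟨ee 0, 0, by
      intro h0
      have := ee_norm 0
      rw [h0, norm_zero] at this
      exact zero_ne_one this⟩⟩
    refine limsup_ratio_eq_one (fun y => (e.trans A) y) x ?_
    simp only [hfun]
    refine pinch (fun y => A0 (g 0 y)) x (fun k => (s k).f) g h (fun k => (s k).D) (fun k => (s k).K)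
      (fun k => (s k).mu) av (fun k => (s k).rho) hfk hg hgd hl (fun k => (hI k).hr) (fun k => (hI k).hrL)
      (fun k => (hI k).hr2) ?_ (fun k => (hI k).hD) (fun k => (av_pos k).le) (fun k => (hI k).hm) av_tendsto
      (K_tendsto s hI h hP (fun k => g k x) (fun k => hg k x))
    intro k x y hy
    have h0 := (hI k).hr x
    exact taylor_ball (s k).f (s k).D (hI k).hf x (4 * (s k).rho x) (av k * (s k).mu x) (by positivity)
      (fun y hy => (hI k).hT x y hy) y hy
  · intro c hc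
    refine not_similar (g 0) (fun x => ?_) c (fun x y => ?_)
    · have h1 := hgd 0 x
      have h2 := (hI 0).hr2 x
      norm_num at h1 h2
      have h3 := (hI 0).hr x
      linarith
    · have := hc x y
      have h4 : ∀ y, (e.trans A) y = A0 (g 0 y) := by
        intro y
        show A (e y) = _
        rw [he, hA]
      rw [h4, h4] at this
      exact this

/-- the frozen statement `S04578` from the core theorem -/
theorem final (core : CoreStatement) :
    ¬ (∀ (E F : Type) [NormedAddCommGroup E] [InnerProductSpace ℝ E] [CompleteSpace E]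
      [NormedAddCommGroup F] [InnerProductSpace ℝ F] [CompleteSpace F],
      ¬ FiniteDimensional ℝ E →
      ∀ f : E ≃ₜ F,
        (∀ x : E,
          Filter.limsup
            (fun r : ℝ =>
              (⨆ y ∈ Metric.sphere x r, edist (f y) (f x)) /
                (⨅ y ∈ Metric.sphere x r, edist (f y) (f x)))
            (nhdsWithin (0 : ℝ) (Set.Ioi 0)) = 1) →
        ∃ c : ℝ, 0 < c ∧ ∀ x y : E, dist (f x) (f y) = c * dist x y) := by
  intro hall
  obtain ⟨f, hf, hn⟩ := final_aux core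
  obtain ⟨c, _, hc⟩ := hall HH HH not_fd f hf
  exact hn c hc

end

end QC49
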