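import Pool.Agent.Lib.MP_49c203_an.Basic

set_option autoImplicit false

namespace QC49

open Filter Set Metric Topology

section ic

variable {E : Type*} [NormedAddCommGroup E] [InnerProductSpace ℝ E]

theorem dnorm_bounds (D K : E →L[ℝ] E) (μ κ : ℝ) (hμ : 0 ≤ μ) (hκ : ‖K‖ = κ) (hκ1 : κ ≤ 1)
    (hD : ∀ u, ‖D u‖ ^ 2 = μ ^ 2 * (‖u‖ ^ 2 + inner ℝ (K u) u)) (w : E) :
    μ * (1 - κ) * ‖w‖ ≤ ‖D w‖ ∧ ‖D w‖ ≤ μ * (1 + κ) * ‖w‖ := by
  have hκ0 : 0 ≤ κ := by rw [← hκ]; exact norm_nonneg _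
  have h1 : |inner ℝ (K w) w| ≤ κ * ‖w‖ ^ 2 := by
    calc |inner ℝ (K w) w| ≤ ‖K w‖ * ‖w‖ := abs_real_inner_le_norm _ _
      _ ≤ (‖K‖ * ‖w‖) * ‖w‖ := by gcongr; exact K.le_opNorm w
      _ = κ * ‖w‖ ^ 2 := by rw [hκ]; ring
  have h2 := abs_le.mp h1
  have hw := norm_nonneg w
  have hw2 : 0 ≤ ‖w‖ ^ 2 := by positivity
  have hκκ : 0 ≤ κ * (1 - κ) := mul_nonneg hκ0 (by linarith)
  constructor
  · apply le_of_sq_le_sq _ (norm_nonneg _)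
    rw [hD w]
    have : (μ * (1 - κ) * ‖w‖) ^ 2 = μ ^ 2 * ((1 - κ) ^ 2 * ‖w‖ ^ 2) := by ring
    rw [this]
    apply mul_le_mul_of_nonneg_left _ (sq_nonneg _)
    nlinarith [h2.1, mul_nonneg hκκ hw2]
  · apply le_of_sq_le_sq _ (by positivity)
    rw [hD w]
    have : (μ * (1 + κ) * ‖w‖) ^ 2 = μ ^ 2 * ((1 + κ) ^ 2 * ‖w‖ ^ 2) := by ring
    rw [this]
    apply mul_le_mul_of_nonneg_left _ (sq_nonneg _)
    nlinarith [h2.2, mul_nonneg hκ0 hw2, mul_nonneg (sq_nonneg κ) hw2]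

theorem exists_level (t : ℕ → ℝ) (h0 : ∀ k, t k ≤ (1 / 2) ^ k) (k0 : ℕ) (r : ℝ) (hr : 0 < r) (hrt : r < t k0) :
    ∃ k, k0 ≤ k ∧ t (k + 1) ≤ r ∧ r < t k := by
  classical
  have hex : ∃ n, t (k0 + n) ≤ r := by
    obtain ⟨n, hn⟩ := exists_pow_lt_of_lt_one hr (show (1 / 2 : ℝ) < 1 by norm_num)
    refine ⟨n, (h0 _).trans ?_⟩
    calc (1 / 2 : ℝ) ^ (k0 + n) = (1 / 2) ^ k0 * (1 / 2) ^ n := pow_add _ _ _
      _ ≤ 1 * (1 / 2) ^ n := by gcongr; exact pow_le_one₀ (by norm_num) (by norm_num)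
      _ ≤ r := by rw [one_mul]; exact hn.le
  set n := Nat.find hex with hn
  have h1 : t (k0 + n) ≤ r := Nat.find_spec hex
  have hn0 : n ≠ 0 := by
    intro h
    rw [h, add_zero] at h1
    linarith
  obtain ⟨m, hm⟩ := Nat.exists_eq_succ_of_ne_zero hn0
  refine ⟨k0 + m, by omega, ?_, ?_⟩
  · rw [hm] at h1
    exact h1
  · have := Nat.find_min hex (m := m) (by omega)
    push Not at this
    exact this

theorem pinch_step (f : E → E) (x : E) (k : ℕ) (fk g g' h : E → E) (D K : E →L[ℝ] E) (μ a r : ℝ) (ρ ρ' : E → ℝ)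
    (hf : ∀ y, f y = fk (g y)) (hg : ∀ y, h (g' y) = g y)
    (hgd : ‖g x - x‖ ≤ (1 / 4) ^ (k + 2) * ρ x)
    (hgd' : ∀ y, ‖g' y - y‖ ≤ (1 / 4) ^ (k + 3) * ρ' y)
    (hl : ∀ x y, ‖(h y - h x) - (y - x)‖ ≤ 3 * a * ‖y - x‖)
    (hρ0 : 0 < ρ x) (hρL : ∀ x y, ρ x ≤ ρ y + ‖x - y‖) (hρL' : ∀ x y, ρ' x ≤ ρ' y + ‖x - y‖)
    (hT : ∀ y, ‖y - g x‖ ≤ 4 * ρ (g x) → ‖fk y - fk (g x) - D (y - g x)‖ ≤ a * μ * ‖y - g x‖)
    (hD : ∀ u, ‖D u‖ ^ 2 = μ ^ 2 * (‖u‖ ^ 2 + inner ℝ (K u) u))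
    (ha : 0 ≤ a) (hμ : 0 < μ) (hκ : ‖K‖ + a ≤ 1 / 2) (ha3 : 3 * a ≤ 1 / 2)
    (hr' : ρ' x ≤ r) (hr : r < ρ x) (hr0 : 0 < r) (y : E) (hy : ‖y - x‖ = r) :
    (μ * r) * ((1 - ‖K‖ - a) * (1 - 3 * a) * (1 - (1 / 4) ^ (k + 2))) ≤ dist (f y) (f x) ∧
    dist (f y) (f x) ≤ (μ * r) * ((1 + ‖K‖ + a) * (1 + 3 * a) * (1 + (1 / 4) ^ (k + 2))) := by
  set κ := ‖K‖ with hκdef
  have hκ0 : 0 ≤ κ := norm_nonneg _
  set δ : ℝ := (1 / 4) ^ (k + 2) with hδ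
  have hδ0 : 0 < δ := by positivity
  have hδ1 : δ ≤ 1 / 16 := by
    have : (1 / 4 : ℝ) ^ k ≤ 1 := pow_le_one₀ (by norm_num) (by norm_num)
    calc δ = (1 / 4) ^ k * (1 / 16) := by rw [hδ, pow_add]; norm_num
      _ ≤ 1 * (1 / 16) := by gcongr
      _ = _ := one_mul _
  have hδ3 : (1 / 4 : ℝ) ^ (k + 3) = δ / 4 := by
    rw [hδ, show k + 3 = (k + 2) + 1 by ring, pow_succ]; ring
  rw [hδ3] at hgd'
  -- level k+1
  have hX := hgd' x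
  have hY := hgd' y
  have hρy : ρ' y ≤ 2 * r := by
    have := hρL' y x
    rw [hy] at this
    linarith
  set d' := ‖g' y - g' x‖ with hd'
  have h1 : ‖(g' y - g' x) - (y - x)‖ ≤ δ * r := by
    calc ‖(g' y - g' x) - (y - x)‖ = ‖(g' y - y) - (g' x - x)‖ := by congr 1; abel
      _ ≤ ‖g' y - y‖ + ‖g' x - x‖ := norm_sub_le _ _
      _ ≤ δ / 4 * (2 * r) + δ / 4 * r := by
        refine add_le_add (hY.trans ?_) (hX.trans ?_) <;> gcongr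
      _ ≤ δ * r := by nlinarith [mul_pos hδ0 hr0]
  have h2 : d' ≤ (1 + δ) * r := by
    calc d' = ‖((g' y - g' x) - (y - x)) + (y - x)‖ := by rw [hd']; congr 1; abel
      _ ≤ ‖(g' y - g' x) - (y - x)‖ + ‖y - x‖ := norm_add_le _ _
      _ ≤ δ * r + r := by rw [hy]; gcongr
      _ = _ := by ring
  have h3 : (1 - δ) * r ≤ d' := by
    have : ‖y - x‖ ≤ d' + ‖(g' y - g' x) - (y - x)‖ := by
      calc ‖y - x‖ = ‖(g' y - g' x) - ((g' y - g' x) - (y - x))‖ := by congr 1; abel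
        _ ≤ _ := norm_sub_le _ _
    rw [hy] at this
    linarith
  have hd'0 : 0 ≤ d' := norm_nonneg _
  -- level k
  set w := g y - g x with hw
  have h4 : ‖w - (g' y - g' x)‖ ≤ 3 * a * d' := by
    have := hl (g' x) (g' y)
    rwa [hg, hg] at this
  have h5 : ‖w‖ ≤ (1 + 3 * a) * d' := by
    calc ‖w‖ = ‖(w - (g' y - g' x)) + (g' y - g' x)‖ := by congr 1; abel
      _ ≤ ‖w - (g' y - g' x)‖ + ‖g' y - g' x‖ := norm_add_le _ _
      _ ≤ 3 * a * d' + d' := by gcongr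
      _ = _ := by ring
  have h6 : (1 - 3 * a) * d' ≤ ‖w‖ := by
    have : d' ≤ ‖w‖ + ‖w - (g' y - g' x)‖ := by
      calc d' = ‖w - (w - (g' y - g' x))‖ := by rw [hd']; congr 1; abel
        _ ≤ _ := norm_sub_le _ _
    linarith
  have h7 : ‖w‖ ≤ 4 * ρ (g x) := by
    have e1 : ρ x ≤ ρ (g x) + ‖x - g x‖ := hρL x (g x)
    rw [norm_sub_rev] at e1
    have e2 : ρ x * (15 / 16) ≤ ρ (g x) := by nlinarith
    have e3 : ‖w‖ ≤ (3 / 2) * ((17 / 16) * r) := by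
      calc ‖w‖ ≤ (1 + 3 * a) * d' := h5
        _ ≤ (3 / 2) * ((17 / 16) * r) := by
          apply mul_le_mul (by linarith) (h2.trans _) hd'0 (by norm_num)
          nlinarith
    nlinarith
  have h8 := hT (g y) h7
  have h9 := dnorm_bounds D K μ κ hμ.le rfl (by linarith) hD w
  have h10 : dist (f y) (f x) = ‖fk (g y) - fk (g x)‖ := by rw [hf, hf, dist_eq_norm]
  have hw0 := norm_nonneg w
  have h11 : dist (f y) (f x) ≤ μ * (1 + κ + a) * ‖w‖ := by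
    rw [h10]
    calc ‖fk (g y) - fk (g x)‖ = ‖(fk (g y) - fk (g x) - D w) + D w‖ := by congr 1; abel
      _ ≤ ‖fk (g y) - fk (g x) - D w‖ + ‖D w‖ := norm_add_le _ _
      _ ≤ a * μ * ‖w‖ + μ * (1 + κ) * ‖w‖ := add_le_add h8 h9.2
      _ = _ := by ring
  have h12 : μ * (1 - κ - a) * ‖w‖ ≤ dist (f y) (f x) := by
    rw [h10]
    have : ‖D w‖ ≤ ‖fk (g y) - fk (g x)‖ + ‖fk (g y) - fk (g x) - D w‖ := by
      calc ‖D w‖ = ‖(fk (g y) - fk (g x)) - (fk (g y) - fk (g x) - D w)‖ := by congr 1; abel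
        _ ≤ _ := norm_sub_le _ _
    have h13 := h9.1
    nlinarith [h8]
  have p1 : 0 ≤ 1 - κ - a := by linarith
  have p2 : 0 ≤ 1 - 3 * a := by linarith
  have p3 : 0 ≤ 1 - δ := by linarith
  constructor
  · calc (μ * r) * ((1 - κ - a) * (1 - 3 * a) * (1 - δ))
        = μ * (1 - κ - a) * ((1 - 3 * a) * ((1 - δ) * r)) := by ring
      _ ≤ μ * (1 - κ - a) * ((1 - 3 * a) * d') := by gcongr
      _ ≤ μ * (1 - κ - a) * ‖w‖ := by gcongr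
      _ ≤ _ := h12
  · calc dist (f y) (f x) ≤ μ * (1 + κ + a) * ‖w‖ := h11
      _ ≤ μ * (1 + κ + a) * ((1 + 3 * a) * d') := by gcongr
      _ ≤ μ * (1 + κ + a) * ((1 + 3 * a) * ((1 + δ) * r)) := by gcongr
      _ = _ := by ring

theorem pinch (f : E → E) (x : E) (fk g h : ℕ → E → E) (D K : ℕ → E → E →L[ℝ] E) (μ : ℕ → E → ℝ) (a : ℕ → ℝ)
    (ρ : ℕ → E → ℝ)
    (hf : ∀ k y, f y = fk k (g k y)) (hg : ∀ k y, h k (g (k + 1) y) = g k y)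
    (hgd : ∀ k y, ‖g k y - y‖ ≤ (1 / 4) ^ (k + 2) * ρ k y)
    (hl : ∀ k x y, ‖(h k y - h k x) - (y - x)‖ ≤ 3 * a k * ‖y - x‖)
    (hρ0 : ∀ k x, 0 < ρ k x) (hρL : ∀ k x y, ρ k x ≤ ρ k y + ‖x - y‖)
    (hρ2 : ∀ k x, ρ k x ≤ (1 / 2) ^ k)
    (hT : ∀ k x y, ‖y - x‖ ≤ 4 * ρ k x → ‖fk k y - fk k x - D k x (y - x)‖ ≤ a k * μ k x * ‖y - x‖)
    (hD : ∀ k x u, ‖D k x u‖ ^ 2 = μ k x ^ 2 * (‖u‖ ^ 2 + inner ℝ (K k x u) u))
    (ha : ∀ k, 0 ≤ a k) (hμ : ∀ k x, 0 < μ k x) (ha0 : Tendsto a atTop (𝓝 0))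
    (hK : Tendsto (fun k => ‖K k (g k x)‖) atTop (𝓝 0)) :
    ∀ ε : ℝ, 0 < ε → ∃ δ : ℝ, 0 < δ ∧ ∀ r : ℝ, 0 < r → r < δ →
      ∃ m : ℝ, 0 < m ∧ ∀ y ∈ Metric.sphere x r, m ≤ dist (f y) (f x) ∧ dist (f y) (f x) ≤ (1 + ε) * m := by
  intro ε hε
  have hδt : Tendsto (fun k : ℕ => (1 / 4 : ℝ) ^ (k + 2)) atTop (𝓝 0) :=
    (tendsto_pow_atTop_nhds_zero_of_lt_one (by norm_num) (by norm_num)).comp (tendsto_add_atTop_nat 2)
  have e1 : ∀ᶠ k in atTop, ‖K k (g k x)‖ + a k < 1 / 2 := by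
    have : Tendsto (fun k => ‖K k (g k x)‖ + a k) atTop (𝓝 (0 + 0)) := hK.add ha0
    rw [add_zero] at this
    exact this.eventually (gt_mem_nhds (by norm_num))
  have e2 : ∀ᶠ k in atTop, 3 * a k < 1 / 2 := by
    have : Tendsto (fun k => 3 * a k) atTop (𝓝 (3 * 0)) := ha0.const_mul 3
    rw [mul_zero] at this
    exact this.eventually (gt_mem_nhds (by norm_num))
  have e3 : ∀ᶠ k in atTop, (1 + ‖K k (g k x)‖ + a k) * (1 + 3 * a k) * (1 + (1 / 4) ^ (k + 2)) -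
      (1 + ε) * ((1 - ‖K k (g k x)‖ - a k) * (1 - 3 * a k) * (1 - (1 / 4) ^ (k + 2))) < 0 := by
    have : Tendsto (fun k => (1 + ‖K k (g k x)‖ + a k) * (1 + 3 * a k) * (1 + (1 / 4) ^ (k + 2)) -
      (1 + ε) * ((1 - ‖K k (g k x)‖ - a k) * (1 - 3 * a k) * (1 - (1 / 4) ^ (k + 2)))) atTop
      (𝓝 ((1 + 0 + 0) * (1 + 3 * 0) * (1 + 0) - (1 + ε) * ((1 - 0 - 0) * (1 - 3 * 0) * (1 - 0)))) := by
      refine Tendsto.sub ?_ (Tendsto.const_mul _ ?_)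
      · exact (((hK.const_add 1).add ha0).mul ((ha0.const_mul 3).const_add 1)).mul (hδt.const_add 1)
      · exact (((hK.const_sub 1).sub ha0).mul ((ha0.const_mul 3).const_sub 1)).mul (hδt.const_sub 1)
    refine this.eventually (gt_mem_nhds ?_)
    nlinarith
  obtain ⟨k0, hk0⟩ := eventually_atTop.mp (e1.and (e2.and e3))
  refine ⟨ρ k0 x, hρ0 k0 x, fun r hr hrk => ?_⟩
  obtain ⟨k, hkk, hk1, hk2⟩ := exists_level (fun k => ρ k x) (fun k => hρ2 k x) k0 r hr hrk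
  obtain ⟨h1, h2, h3⟩ := hk0 k hkk
  set L := (1 - ‖K k (g k x)‖ - a k) * (1 - 3 * a k) * (1 - (1 / 4) ^ (k + 2)) with hL
  set U := (1 + ‖K k (g k x)‖ + a k) * (1 + 3 * a k) * (1 + (1 / 4) ^ (k + 2)) with hU
  have hμr : 0 < μ k (g k x) * r := mul_pos (hμ _ _) hr
  have hL0 : 0 < L := by
    have : (1 / 4 : ℝ) ^ (k + 2) < 1 := pow_lt_one₀ (by norm_num) (by norm_num) (by omega)
    rw [hL]
    refine mul_pos (mul_pos (by linarith) (by linarith)) (by linarith)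
  refine ⟨(μ k (g k x) * r) * L, mul_pos hμr hL0, fun y hy => ?_⟩
  rw [mem_sphere, dist_eq_norm] at hy
  have hgd' : ∀ y, ‖g (k + 1) y - y‖ ≤ (1 / 4) ^ (k + 3) * ρ (k + 1) y := fun y => hgd (k + 1) y
  have := pinch_step f x k (fk k) (g k) (g (k + 1)) (h k) (D k (g k x)) (K k (g k x)) (μ k (g k x)) (a k) r
    (ρ k) (ρ (k + 1)) (hf k) (hg k) (hgd k x) hgd' (hl k) (hρ0 k x) (hρL k) (hρL (k + 1))
    (fun y hy => hT k (g k x) y hy) (hD k (g k x)) (ha k) (hμ _ _) h1.le h2.le hk1 hk2 hr y hy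
  refine ⟨this.1, this.2.trans ?_⟩
  have h4 : U ≤ (1 + ε) * L := by linarith
  calc (μ k (g k x) * r) * U ≤ (μ k (g k x) * r) * ((1 + ε) * L) := by gcongr
    _ = _ := by ring

end ic

section id

open ENNReal in
/-- pinching on spheres gives the limsup of the frozen statement -/
theorem limsup_ratio_eq_one {E F : Type} [NormedAddCommGroup E] [InnerProductSpace ℝ E] [Nontrivial E]
    [NormedAddCommGroup F] [InnerProductSpace ℝ F] (f : E → F) (x : E)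
    (h : ∀ ε : ℝ, 0 < ε → ∃ δ : ℝ, 0 < δ ∧ ∀ r : ℝ, 0 < r → r < δ →
      ∃ m : ℝ, 0 < m ∧ ∀ y ∈ Metric.sphere x r, m ≤ dist (f y) (f x) ∧ dist (f y) (f x) ≤ (1 + ε) * m) :
    Filter.limsup
      (fun r : ℝ =>
        (⨆ y ∈ Metric.sphere x r, edist (f y) (f x)) /
          (⨅ y ∈ Metric.sphere x r, edist (f y) (f x)))
      (nhdsWithin (0 : ℝ) (Set.Ioi 0)) = 1 := by
  have hT : Tendsto (fun r : ℝ =>
        (⨆ y ∈ Metric.sphere x r, edist (f y) (f x)) /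
          (⨅ y ∈ Metric.sphere x r, edist (f y) (f x)))
      (nhdsWithin (0 : ℝ) (Set.Ioi 0)) (nhds 1) := by
    rw [ENNReal.tendsto_nhds one_ne_top]
    intro ε' hε'
    -- choose a real ε with ofReal ε ≤ ε'
    obtain ⟨ε, hε, hεε'⟩ : ∃ ε : ℝ, 0 < ε ∧ ENNReal.ofReal ε ≤ ε' := by
      rcases eq_or_ne ε' ⊤ with h1 | h1
      · exact ⟨1, one_pos, by simp [h1]⟩
      · refine ⟨ε'.toReal, ENNReal.toReal_pos hε'.ne' h1, ?_⟩
        rw [ENNReal.ofReal_toReal h1]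
    obtain ⟨δ, hδ, hr⟩ := h ε hε
    have hmem : Set.Ioo (0 : ℝ) δ ∈ nhdsWithin (0 : ℝ) (Set.Ioi 0) := Ioo_mem_nhdsGT hδ
    filter_upwards [hmem] with r hr0
    obtain ⟨m, hm, hy⟩ := hr r hr0.1 hr0.2
    obtain ⟨y0, hy0⟩ : (Metric.sphere x r).Nonempty := NormedSpace.sphere_nonempty.mpr hr0.1.le
    set S := (⨆ y ∈ Metric.sphere x r, edist (f y) (f x)) with hS
    set I := (⨅ y ∈ Metric.sphere x r, edist (f y) (f x)) with hI
    have hIle : I ≤ S := by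
      calc I ≤ edist (f y0) (f x) := iInf₂_le y0 hy0
        _ ≤ S := le_iSup₂ (f := fun y (_ : y ∈ Metric.sphere x r) => edist (f y) (f x)) y0 hy0
    have hIge : ENNReal.ofReal m ≤ I := by
      refine le_iInf₂ fun y hyr => ?_
      rw [edist_dist]
      exact ENNReal.ofReal_le_ofReal (hy y hyr).1
    have hSle : S ≤ ENNReal.ofReal ((1 + ε) * m) := by
      refine iSup₂_le fun y hyr => ?_
      rw [edist_dist]
      exact ENNReal.ofReal_le_ofReal (hy y hyr).2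
    have hI0 : I ≠ 0 := by
      intro h0
      rw [h0] at hIge
      have : 0 < ENNReal.ofReal m := ENNReal.ofReal_pos.mpr hm
      exact absurd (lt_of_lt_of_le this hIge) (lt_irrefl _)
    have hItop : I ≠ ⊤ := by
      intro h0
      rw [h0] at hIle
      have := lt_of_le_of_lt (hIle.trans hSle) ENNReal.ofReal_lt_top
      exact lt_irrefl _ this
    constructor
    · -- 1 - ε' ≤ S / I
      calc 1 - ε' ≤ 1 := tsub_le_self
        _ = I / I := (ENNReal.div_self hI0 hItop).symm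
        _ ≤ S / I := ENNReal.div_le_div_right hIle I
    · calc S / I ≤ ENNReal.ofReal ((1 + ε) * m) / ENNReal.ofReal m :=
            ENNReal.div_le_div hSle hIge
        _ = ENNReal.ofReal (1 + ε) := by
            rw [ENNReal.ofReal_mul (by positivity), mul_div_assoc,
              ENNReal.div_self (ENNReal.ofReal_pos.mpr hm).ne' ENNReal.ofReal_ne_top, mul_one]
        _ = 1 + ENNReal.ofReal ε := by
            rw [ENNReal.ofReal_add zero_le_one hε.le, ENNReal.ofReal_one]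
        _ ≤ 1 + ε' := by gcongr
  exact hT.limsup_eq

end id

end QC49
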