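import Pool.Agent.Lib.MP_49c203_an.Basic

set_option autoImplicit false

namespace QC49

open Filter Topology

noncomputable section

/-- the sequence `a_k = 10^-5 (k+1)^(-1/4)` -/
def av (k : ℕ) : ℝ := (1 / 10 ^ 5) * √(√(1 / ((k : ℝ) + 1)))

/-- `eta_k` -/
def ev (k : ℕ) : ℝ := av k ^ 3 / 10 ^ 6 * (1 / 4) ^ k

theorem av_pos (k : ℕ) : 0 < av k := by
  unfold av
  have : (0 : ℝ) < 1 / ((k : ℝ) + 1) := by positivity
  positivity

theorem av_le (k : ℕ) : av k ≤ 1 / 10 ^ 5 := by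
  unfold av
  have h1 : 1 / ((k : ℝ) + 1) ≤ 1 := by
    rw [div_le_one (by positivity)]
    have : (0 : ℝ) ≤ k := Nat.cast_nonneg k
    linarith
  have h2 : √(√(1 / ((k : ℝ) + 1))) ≤ 1 := by
    have e1 : √(1 / ((k : ℝ) + 1)) ≤ 1 := by
      rw [Real.sqrt_le_iff]; exact ⟨zero_le_one, by simpa using h1⟩
    rw [Real.sqrt_le_iff]; exact ⟨zero_le_one, by simpa using e1⟩
  have h3 : 0 ≤ √(√(1 / ((k : ℝ) + 1))) := Real.sqrt_nonneg _
  linarith [mul_le_mul_of_nonneg_left h2 (show (0 : ℝ) ≤ 1 / 10 ^ 5 by positivity)]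

theorem av_pow4 (k : ℕ) : av k ^ 4 = 1 / 10 ^ 20 * (1 / ((k : ℝ) + 1)) := by
  unfold av
  have h1 : (0 : ℝ) ≤ 1 / ((k : ℝ) + 1) := by positivity
  have h2 : √(√(1 / ((k : ℝ) + 1))) ^ 4 = 1 / ((k : ℝ) + 1) := by
    calc √(√(1 / ((k : ℝ) + 1))) ^ 4 = (√(√(1 / ((k : ℝ) + 1))) ^ 2) ^ 2 := by ring
      _ = _ := by rw [Real.sq_sqrt (Real.sqrt_nonneg _), Real.sq_sqrt h1]
  rw [mul_pow, h2]
  norm_num

theorem av_tendsto : Tendsto av atTop (𝓝 0) := by
  have h1 : Tendsto (fun k : ℕ => 1 / ((k : ℝ) + 1)) atTop (𝓝 0) := tendsto_one_div_add_atTop_nhds_zero_nat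
  have h2 : Tendsto (fun k : ℕ => √(√(1 / ((k : ℝ) + 1)))) atTop (𝓝 (√(√0))) :=
    ((Real.continuous_sqrt.tendsto _).comp (Real.continuous_sqrt.tendsto _)).comp h1
  rw [Real.sqrt_zero, Real.sqrt_zero] at h2
  have h3 := h2.const_mul (1 / 10 ^ 5 : ℝ)
  rw [mul_zero] at h3
  exact h3

theorem ev_pos (k : ℕ) : 0 < ev k := by
  unfold ev
  have := av_pos k
  positivity

theorem ev_le (k : ℕ) : ev k ≤ av k ^ 3 / 10 ^ 6 := by
  unfold ev
  have h1 : (1 / 4 : ℝ) ^ k ≤ 1 := pow_le_one₀ (by norm_num) (by norm_num)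
  have h2 := av_pos k
  have h3 : 0 ≤ av k ^ 3 / 10 ^ 6 := by positivity
  calc _ ≤ av k ^ 3 / 10 ^ 6 * 1 := by gcongr
    _ = _ := mul_one _

theorem ev_le_av (k : ℕ) : ev k ≤ av k / 10 ^ 6 * (1 / 4) ^ k := by
  unfold ev
  have h2 := av_pos k
  have h3 := av_le k
  have h4 : av k ^ 2 ≤ 1 := by
    have : av k ≤ 1 := h3.trans (by norm_num)
    nlinarith
  have h5 : av k ^ 3 ≤ av k := by
    calc av k ^ 3 = av k * av k ^ 2 := by ring
      _ ≤ av k * 1 := by gcongr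
      _ = _ := mul_one _
  gcongr

/-- partial sums of `(1/4)^j` -/
theorem geom4 (n : ℕ) : ∑ j ∈ Finset.range n, (1 / 4 : ℝ) ^ j ≤ 4 / 3 := by
  have := geom_sum_eq (x := (1 / 4 : ℝ)) (by norm_num) n
  rw [this]
  have h : (0 : ℝ) ≤ (1 / 4) ^ n := by positivity
  rw [div_le_iff_of_neg (by norm_num)]
  linarith

/-- partial sums of `eta` starting at `k0` -/
theorem sum_ev (k0 n : ℕ) (w : ℝ) (hw : 0 ≤ w) (h : ∀ k, k0 ≤ k → 1000 * av k ≤ w) :
    10 * ∑ j ∈ Finset.range n, ev (k0 + j) ≤ w / 10 := by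
  have h1 : ∀ j ∈ Finset.range n, ev (k0 + j) ≤ w / 10 ^ 9 * (1 / 4) ^ j := by
    intro j _
    have h2 := ev_le_av (k0 + j)
    have h3 := h (k0 + j) (by omega)
    have h4 : (1 / 4 : ℝ) ^ (k0 + j) ≤ (1 / 4) ^ j := by
      rw [pow_add]
      have : (1 / 4 : ℝ) ^ k0 ≤ 1 := pow_le_one₀ (by norm_num) (by norm_num)
      calc _ ≤ 1 * (1 / 4 : ℝ) ^ j := by gcongr
        _ = _ := one_mul _
    have h5 : av (k0 + j) / 10 ^ 6 ≤ w / 10 ^ 9 := by
      rw [div_le_div_iff₀ (by positivity) (by positivity)]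
      nlinarith
    have h6 := av_pos (k0 + j)
    calc ev (k0 + j) ≤ av (k0 + j) / 10 ^ 6 * (1 / 4) ^ (k0 + j) := h2
      _ ≤ w / 10 ^ 9 * (1 / 4) ^ j := by gcongr
  have h2 := Finset.sum_le_sum h1
  rw [← Finset.mul_sum] at h2
  have h3 := geom4 n
  have h4 : w / 10 ^ 9 * ∑ j ∈ Finset.range n, (1 / 4 : ℝ) ^ j ≤ w / 10 ^ 9 * (4 / 3) := by gcongr
  linarith

/-- the recursion forces the potential to `0` -/
theorem tendsto_zero_of_rec (Φ c δ : ℕ → ℝ) (hc0 : ∀ n, 0 ≤ c n) (hc1 : ∀ n, c n ≤ 1)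
    (hsum : Tendsto (fun n => ∑ i ∈ Finset.range n, c i) atTop atTop) (hδ : Tendsto δ atTop (𝓝 0))
    (hΦ : ∀ n, 0 ≤ Φ n) (hrec : ∀ n, Φ (n + 1) ≤ (1 - c n) * Φ n + c n * δ n) :
    Tendsto Φ atTop (𝓝 0) := by
  rw [Metric.tendsto_atTop]
  intro ε hε
  obtain ⟨N, hN⟩ := eventually_atTop.mp (hδ.eventually (gt_mem_nhds (show (0 : ℝ) < ε / 4 by positivity)))
  have hind : ∀ m, Φ (N + m) - ε / 4 ≤ Real.exp (-∑ i ∈ Finset.range m, c (N + i)) * Φ N := by
    intro m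
    induction m with
    | zero => simp; linarith
    | succ m ih =>
      have h1 := hrec (N + m)
      have h2 := hN (N + m) (by omega)
      have h3 : 1 - c (N + m) ≤ Real.exp (-c (N + m)) := by
        have := Real.add_one_le_exp (-c (N + m))
        linarith
      have h4 := hc0 (N + m)
      have h5 : 0 ≤ 1 - c (N + m) := by linarith [hc1 (N + m)]
      have h6 : 0 ≤ Real.exp (-∑ i ∈ Finset.range m, c (N + i)) * Φ N := mul_nonneg (Real.exp_pos _).le (hΦ N)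
      have e1 : Φ (N + (m + 1)) - ε / 4 ≤ (1 - c (N + m)) * (Φ (N + m) - ε / 4) := by
        have : c (N + m) * δ (N + m) ≤ c (N + m) * (ε / 4) := by gcongr
        have e0 : N + (m + 1) = N + m + 1 := by ring
        rw [e0]
        nlinarith
      calc Φ (N + (m + 1)) - ε / 4 ≤ (1 - c (N + m)) * (Φ (N + m) - ε / 4) := e1
        _ ≤ (1 - c (N + m)) * (Real.exp (-∑ i ∈ Finset.range m, c (N + i)) * Φ N) := by gcongr
        _ ≤ Real.exp (-c (N + m)) * (Real.exp (-∑ i ∈ Finset.range m, c (N + i)) * Φ N) := by gcongr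
        _ = _ := by rw [Finset.sum_range_succ, neg_add, Real.exp_add]; ring
  have hs : Tendsto (fun m => ∑ i ∈ Finset.range m, c (N + i)) atTop atTop := by
    have h1 : Tendsto (fun m => ∑ i ∈ Finset.range (m + N), c i) atTop atTop := hsum.comp (tendsto_add_atTop_nat N)
    have h2 : (fun m => ∑ i ∈ Finset.range m, c (N + i)) =
        fun m => (∑ i ∈ Finset.range (m + N), c i) + -(∑ i ∈ Finset.range N, c i) := by
      funext m
      rw [add_comm m N, Finset.sum_range_add]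
      ring
    rw [h2]
    exact tendsto_atTop_add_const_right _ _ h1
  have ht : Tendsto (fun m => Real.exp (-∑ i ∈ Finset.range m, c (N + i)) * Φ N) atTop (𝓝 (0 * Φ N)) :=
    (Real.tendsto_exp_neg_atTop_nhds_zero.comp hs).mul_const _
  rw [zero_mul] at ht
  obtain ⟨M, hM⟩ := eventually_atTop.mp (ht.eventually (gt_mem_nhds (show (0 : ℝ) < ε / 4 by positivity)))
  refine ⟨N + M, fun n hn => ?_⟩
  obtain ⟨m, rfl⟩ := Nat.exists_eq_add_of_le (show N ≤ n by omega)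
  have h1 := hind m
  have h2 := hM m (by omega)
  rw [Real.dist_eq, sub_zero, abs_of_nonneg (hΦ _)]
  linarith

/-- the concrete recursion of the construction -/
theorem phi_tendsto (k0 : ℕ) (Φ : ℕ → ℝ) (hΦ : ∀ n, 0 ≤ Φ n)
    (hrec : ∀ n, Φ (n + 1) = (1 - av (k0 + n) * (av (k0 + n) ^ 3 / 10 ^ 4) / 128) * Φ n
      + 132 * (av (k0 + n) ^ 3 / 10 ^ 4) ^ 2) :
    Tendsto Φ atTop (𝓝 0) := by
  have hA : (0 : ℝ) < 1 / (10 ^ 24 * 128) := by positivity
  refine tendsto_zero_of_rec Φ (fun n => 1 / (10 ^ 24 * 128) * (1 / (((k0 + n : ℕ) : ℝ) + 1)))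
    (fun n => 132 * 128 / 10 ^ 4 * av (k0 + n) ^ 2) ?_ ?_ ?_ ?_ hΦ ?_
  · intro n; positivity
  · intro n
    have h1 : 1 / (((k0 + n : ℕ) : ℝ) + 1) ≤ 1 := by
      rw [div_le_one (by positivity)]
      have : (0 : ℝ) ≤ ((k0 + n : ℕ) : ℝ) := Nat.cast_nonneg _
      linarith
    calc _ ≤ 1 / (10 ^ 24 * 128) * 1 := by gcongr
      _ ≤ (1 : ℝ) := by norm_num
  · have h0 := Real.tendsto_sum_range_one_div_nat_succ_atTop
    have h1 : Tendsto (fun n => ∑ i ∈ Finset.range (n + k0), (1 / ((i : ℝ) + 1))) atTop atTop :=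
      h0.comp (tendsto_add_atTop_nat k0)
    have h2 : (fun n => ∑ i ∈ Finset.range n, 1 / (10 ^ 24 * 128) * (1 / (((k0 + i : ℕ) : ℝ) + 1))) =
        fun n => (1 / (10 ^ 24 * 128)) * ((∑ i ∈ Finset.range (n + k0), (1 / ((i : ℝ) + 1))) +
          -(∑ i ∈ Finset.range k0, (1 / ((i : ℝ) + 1)))) := by
      funext n
      rw [← Finset.mul_sum, add_comm n k0, Finset.sum_range_add]
      congr 1
      ring
    rw [h2]
    exact (tendsto_atTop_add_const_right _ _ h1).const_mul_atTop hA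
  · have h1 : Tendsto (fun n => av (k0 + n)) atTop (𝓝 0) := by
      have := av_tendsto.comp (tendsto_add_atTop_nat k0)
      refine this.congr (fun n => ?_)
      simp only [Function.comp]
      rw [add_comm]
    have h2 := (h1.pow 2).const_mul (132 * 128 / 10 ^ 4 : ℝ)
    have h3 : (132 * 128 / 10 ^ 4 : ℝ) * 0 ^ 2 = 0 := by norm_num
    rw [h3] at h2
    exact h2
  · intro n
    rw [hrec n]
    have h4 := av_pow4 (k0 + n)
    have h5 : av (k0 + n) * (av (k0 + n) ^ 3 / 10 ^ 4) / 128 =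
        1 / (10 ^ 24 * 128) * (1 / (((k0 + n : ℕ) : ℝ) + 1)) := by
      have : av (k0 + n) * (av (k0 + n) ^ 3 / 10 ^ 4) / 128 = av (k0 + n) ^ 4 / (10 ^ 4 * 128) := by ring
      rw [this, h4]
      ring
    rw [h5]
    have h6 : 132 * (av (k0 + n) ^ 3 / 10 ^ 4) ^ 2 =
        1 / (10 ^ 24 * 128) * (1 / (((k0 + n : ℕ) : ℝ) + 1)) * (132 * 128 / 10 ^ 4 * av (k0 + n) ^ 2) := by
      rw [← h5]
      ring
    rw [h6]

end

end QC49
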