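import Pool.Agent.Lib.MP_49c203_an.B.Pc
import Pool.Agent.Lib.MP_49c203_an.Core
import Pool.Agent.Lib.MP_49c203_an.I.Lim
import Pool.Agent.Lib.MP_49c203_an.I.Pinch
import Pool.Agent.Lib.MP_49c203_an.I.Seq

set_option autoImplicit false

namespace QC49

open Filter Set Metric Topology

open scoped RealInnerProductSpace

noncomputable section

/-- state of the iteration -/
structure St where
  f : HH → HH
  D : HH → HH →L[ℝ] HH
  mu : HH → ℝ
  K : HH → HH →L[ℝ] HH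
  rho : HH → ℝ

/-- levels of the invariant -/
def Wv (k : ℕ) : ℝ := 1 / 20 + 10 * ∑ j ∈ Finset.range k, ev j

/-- the invariant -/
structure Inv (k : ℕ) (s : St) : Prop where
  hf : ∀ x, HasFDerivAt s.f (s.D x) x
  hDc : Continuous s.D
  hmc : Continuous s.mu
  hm : ∀ x, 0 < s.mu x
  hKc : Continuous s.K
  hKs : ∀ x u v, ⟪s.K x u, v⟫ = ⟪u, s.K x v⟫
  hKk : ∀ x, IsCompactOperator (s.K x)
  hD : ∀ x u, ‖s.D x u‖ ^ 2 = s.mu x ^ 2 * (‖u‖ ^ 2 + ⟪s.K x u, u⟫)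
  hP : ∀ x, Pot (qf (s.K x)) (Wv k) (1 / 400)
  hr : ∀ x, 0 < s.rho x
  hrL : ∀ x y, s.rho x ≤ s.rho y + ‖x - y‖
  hr2 : ∀ x, s.rho x ≤ (1 / 2) ^ k
  hT : ∀ x y, ‖y - x‖ ≤ 4 * s.rho x → ‖s.D y - s.D x‖ ≤ av k * s.mu x

/-- one generation, relation between consecutive states -/
def Rel (k : ℕ) (s t : St) : Prop :=
  ∃ h : HH → HH, (∀ x, t.f x = s.f (h x)) ∧
    (∀ x y, ‖(h y - h x) - (y - x)‖ ≤ 3 * av k * ‖y - x‖) ∧
    (∀ x, ‖h x - x‖ ≤ (1 / 4) ^ (k + 3) * s.rho x) ∧ (∀ x, t.rho x ≤ s.rho x / 2) ∧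
    (∀ x w Φ, 1000 * av k ≤ w → 0 ≤ Φ → Pot (qf (s.K (h x))) w Φ →
      Pot (qf (t.K x)) (w + 10 * ev k) ((1 - av k * (av k ^ 3 / 10 ^ 4) / 128) * Φ
        + 132 * (av k ^ 3 / 10 ^ 4) ^ 2))

theorem Wv_le (k : ℕ) : Wv k ≤ 3 / 50 := by
  have h := sum_ev 0 k (1 / 100) (by norm_num) (fun j _ => by
    have := av_le j
    norm_num at this ⊢
    linarith)
  unfold Wv
  simp only [zero_add] at h
  linarith

theorem Wv_ge (k : ℕ) : 1000 * av k ≤ Wv k := by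
  have h1 := av_le k
  have h2 : 0 ≤ ∑ j ∈ Finset.range k, ev j := Finset.sum_nonneg (fun j _ => (ev_pos j).le)
  unfold Wv
  norm_num at h1 ⊢
  linarith

theorem lip_cont {E : Type*} [NormedAddCommGroup E] (ρ : E → ℝ) (h : ∀ x y, ρ x ≤ ρ y + ‖x - y‖) :
    Continuous ρ := by
  have : LipschitzWith 1 ρ := LipschitzWith.of_dist_le_mul (fun x y => by
    rw [NNReal.coe_one, one_mul, Real.dist_eq, dist_eq_norm, abs_le]
    have h1 := h x y
    have h2 := h y x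
    rw [norm_sub_rev] at h2
    constructor <;> linarith)
  exact this.continuous

theorem sqrt400 : √(1 / 400 : ℝ) = 1 / 20 := by
  rw [show (1 / 400 : ℝ) = (1 / 20) ^ 2 by norm_num, Real.sqrt_sq (by norm_num)]

theorem normK_le {k : ℕ} {s : St} (hs : Inv k s) (x : HH) : ‖s.K x‖ ≤ 1 / 8 := by
  have h0 : 0 ≤ Wv k := by
    have := Wv_ge k
    have := av_pos k
    linarith
  have h1 := (hs.hP x).norm_le (hs.hKs x) h0
  rw [sqrt400] at h1
  have := Wv_le k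
  linarith

theorem phi_inv (k : ℕ) : (1 - av k * (av k ^ 3 / 10 ^ 4) / 128) * (1 / 400)
    + 132 * (av k ^ 3 / 10 ^ 4) ^ 2 ≤ 1 / 400 := by
  have h1 := av_pos k
  have h2 := av_le k
  have h3 : av k ^ 2 ≤ 1 / 10 ^ 10 := by
    calc av k ^ 2 ≤ (1 / 10 ^ 5) ^ 2 := pow_le_pow_left₀ h1.le h2 2
      _ = _ := by norm_num
  have h4 : 0 < av k ^ 4 := by positivity
  have h5 : 132 * (av k ^ 3 / 10 ^ 4) ^ 2 = av k ^ 4 * (132 / 10 ^ 8 * av k ^ 2) := by ring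
  have h6 : av k * (av k ^ 3 / 10 ^ 4) / 128 * (1 / 400) = av k ^ 4 * (1 / (10 ^ 4 * 128 * 400)) := by ring
  have h7 : 132 / 10 ^ 8 * av k ^ 2 ≤ 1 / (10 ^ 4 * 128 * 400) := by
    calc 132 / 10 ^ 8 * av k ^ 2 ≤ 132 / 10 ^ 8 * (1 / 10 ^ 10) := by gcongr
      _ ≤ _ := by norm_num
  have h8 : av k ^ 4 * (132 / 10 ^ 8 * av k ^ 2) ≤ av k ^ 4 * (1 / (10 ^ 4 * 128 * 400)) := by gcongr
  nlinarith

theorem step (core : CoreStatement) (k : ℕ) (s : St) (hs : Inv k s) :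
    ∃ t, Inv (k + 1) t ∧ Rel k s t := by
  have ha := av_pos k
  have hal := av_le k
  obtain ⟨h, Dh, F, K', h1, h2, h3, h4, h5, h6, h7, h8, h9, h10, h11⟩ :=
    core s.K hs.hKc hs.hKs hs.hKk (normK_le hs) (av k) (ev k) ha (hal.trans (by norm_num)) (ev_pos k)
      (ev_le k) (fun x => (1 / 4) ^ (k + 3) * s.rho x) ((lip_cont s.rho hs.hrL).const_mul _ |>.congr (fun x => rfl))
      (fun x => mul_pos (by positivity) (hs.hr x))
  have hhc : Continuous h := continuous_iff_continuousAt.mpr (fun x => (h1 x).continuousAt)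
  have hF : ∀ x, 0 < 1 + F x := fun x => by
    have := (abs_le.mp (h6 x)).1
    linarith
  set D' : HH → HH →L[ℝ] HH := fun x => (s.D (h x)).comp (Dh x) with hD'
  set m' : HH → ℝ := fun x => s.mu (h x) * (1 + F x) with hm'
  have hD'c : Continuous D' := (hs.hDc.comp hhc).clm_comp h2
  have hm'c : Continuous m' := (hs.hmc.comp hhc).mul (continuous_const.add h5)
  have hm'0 : ∀ x, 0 < m' x := fun x => mul_pos (hs.hm _) (hF x)
  obtain ⟨ρ', r1, r2, r3, r4⟩ := exists_radius D' hD'c (fun x => av (k + 1) * m' x)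
    (continuous_const.mul hm'c) (fun x => mul_pos (av_pos _) (hm'0 x)) s.rho hs.hr hs.hrL
  refine ⟨⟨fun x => s.f (h x), D', m', K', ρ'⟩, ?_, h, fun x => rfl, ?_, ?_, r3, ?_⟩
  · refine ⟨?_, hD'c, hm'c, hm'0, h7, h8, h9, ?_, ?_, r1, r2, ?_, r4⟩
    · intro x
      exact (hs.hf (h x)).comp x (h1 x)
    · intro x u
      show ‖s.D (h x) (Dh x u)‖ ^ 2 = (s.mu (h x) * (1 + F x)) ^ 2 * (‖u‖ ^ 2 + ⟪K' x u, u⟫)
      rw [hs.hD, h10]
      ring
    · intro x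
      have h12 := h11 x (Wv k) (1 / 400) (Wv_ge k) (by norm_num) (hs.hP (h x))
      have h13 : Wv k + 10 * ev k = Wv (k + 1) := by
        unfold Wv
        rw [Finset.sum_range_succ]
        ring
      rw [h13] at h12
      exact h12.mono le_rfl (phi_inv k)
    · intro x
      have e1 := r3 x
      have e2 := hs.hr2 x
      calc ρ' x ≤ s.rho x / 2 := e1
        _ ≤ (1 / 2) ^ k / 2 := by gcongr
        _ = _ := by rw [pow_succ]; ring
  · intro x y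
    exact lip_of_deriv h Dh (3 * av k) h1 h3 x y
  · exact h4
  · intro x w Φ hw hΦ hP
    exact h11 x w Φ hw hΦ hP

end

end QC49
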